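import Mathlib
import Pool.Agent.Helper17.FunEq2

set_option autoImplicit false

namespace Pool.Agent.Results.MP_12983e_an.Classification

/-- A continuous `f : ℝ → ℝ` satisfies `f (x + f x) = f x + f (f x)` for all `x` iff
`f` is linear, or `f x = α x` on `x ≥ 0` and `f x = β x` on `x ≤ 0` with `α, β ≥ 0`. -/
theorem result (f : ℝ → ℝ) (hf : Continuous f) :
    (∀ x : ℝ, f (x + f x) = f x + f (f x)) ↔
      ((∃ a : ℝ, ∀ x : ℝ, f x = a * x) ∨
        (∃ α β : ℝ, 0 ≤ α ∧ 0 ≤ β ∧ (∀ x : ℝ, 0 ≤ x → f x = α * x) ∧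
          (∀ x : ℝ, x ≤ 0 → f x = β * x))) := by
  constructor
  · intro h
    exact Pool.Agent.Helper17.FunEq.main hf h
  · rintro (⟨a, ha⟩ | ⟨α, β, hα, hβ, h1, h2⟩) x
    · rw [ha x, ha (x + a * x), ha (a * x)]; ring
    · rcases le_total 0 x with hx | hx
      · have e1 : 0 ≤ α * x := mul_nonneg hα hx
        rw [h1 x hx, h1 (x + α * x) (by linarith), h1 (α * x) e1]; ring
      · have e1 : β * x ≤ 0 := mul_nonpos_of_nonneg_of_nonpos hβ hx
        rw [h2 x hx, h2 (x + β * x) (by linarith), h2 (β * x) e1]; ring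

end Pool.Agent.Results.MP_12983e_an.Classification
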